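import Pool.Agent.T6.H62.AC.Main
import Pool.Agent.T6.H62.AC.Str
import Pool.Agent.T6.H62.AC.Mom0
import Pool.Agent.T6.H62.AC.Mom1
import Pool.Agent.T6.H62.AC.Repr
import Pool.Agent.T6.H62.AC.Repr2
import Pool.Agent.T6.H62.AC.Nlt
import Pool.Agent.T6.H62.AC.Cra
import Pool.Agent.T6.H62.AC.Mxb
import Pool.Agent.T6.H62.AC.Mxm
import Pool.Agent.T6.H62.AC.Mxj
import Pool.Agent.T6.H62.AC.Thr
import Pool.Agent.T6.H62.AC.Pola
import Pool.Agent.T6.H62.AC.Polb
import Pool.Agent.T6.H62.AC.Conc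
import Pool.Agent.T6.H62.AC.Tst
import Pool.Agent.T6.H62.AC.Amp
import Pool.Agent.T6.H62.AC.Stx
import Pool.Agent.T6.H62.AC.Step
import Pool.Agent.T6.H62.AC.Stepj
import Pool.Agent.T6.H62.AC.Mixb
import Pool.Agent.T6.H62.AC.Mixm
import Pool.Agent.T6.H62.AC.Mixj
import Pool.Agent.T6.H62.AC.Mixf
import Pool.Agent.T6.H62.AC.Catm
import Pool.Agent.T6.H62.AC.Catb
import Pool.Agent.T6.H62.AC.Dec
import Pool.Agent.T6.H62.AC.Sma
import Pool.Agent.T6.H62.AC.Smb

/-!
# Smoothness of the nontrivial solution of the cooperative-branching RDE (MP_319742_pr, Q1)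

Every solution on `[0,1]` that charges `(0,1)` is, off its atom at `0`, absolutely continuous,
with a density that is `C^∞` on `(0,1)`, for every `α > 4`.
-/

open MeasureTheory

namespace Pool.Agent.Results.MP_319742_pr.SmoothDensity

open Pool.Agent.T6.H62.AC Pool.Agent.T6.H62.AC.Pola Pool.Agent.T6.H62.AC.Smb Pool.Agent.T6.H62.AC.ModMixb

theorem result :
    ∀ (α : ℝ) (ν : Measure ℝ), 4 < α → IsProbabilityMeasure ν → ν (Set.Icc 0 1)ᶜ = 0 →
      -- `ν` is the law of `χ (η₁ + (1 - η₁) η₂ η₃)`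
      ν = ((ENNReal.ofReal (1 / (α + 1)) • Measure.dirac (0 : ℝ) +
              ENNReal.ofReal (α / (α + 1)) • Measure.dirac (1 : ℝ)).prod
            (ν.prod (ν.prod ν))).map
          (fun q : ℝ × ℝ × ℝ × ℝ => q.1 * (q.2.1 + (1 - q.2.1) * q.2.2.1 * q.2.2.2)) →
      -- nontrivial
      0 < ν (Set.Ioo 0 1) →
      ∃ f : ℝ → ℝ, (∀ x, 0 ≤ f x) ∧ ContDiffOn ℝ (⊤ : ℕ∞) f (Set.Ioo 0 1) ∧
        ν = ν {0} • Measure.dirac (0 : ℝ) +
          (volume.restrict (Set.Icc 0 1)).withDensity (fun x => ENNReal.ofReal (f x)) := by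
  intro α ν hα hν h01 hsol hnt
  exact final str (final_core mom0 mom1 rep rep2 nlt cra mxb mxm mxj thr pola polb conc tst amp
    (step stx) (stepj (step stx)) mixb mixm mixj mixf catm catb dec sma smb) α ν hα hν h01 hsol hnt

end Pool.Agent.Results.MP_319742_pr.SmoothDensity
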